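import Mathlib

namespace Pool.Agent.Work.MP_496e47_co

/-- A skew shape `outer / inner`: two Young diagrams with `inner ≤ outer`.
A cell `(i, j)` lies in row `i` and column `j` (English notation, rows numbered downwards). -/
structure SkewShape where
  outer : YoungDiagram
  inner : YoungDiagram
  inner_le : inner ≤ outer

/-- The cells of the skew shape. -/
def SkewShape.cells (S : SkewShape) : Finset (ℕ × ℕ) := S.outer.cells \ S.inner.cells

/-- The number `n` of cells. -/
def SkewShape.size (S : SkewShape) : ℕ := S.cells.card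

/-- A standard Young tableau of shape `S`: a bijective filling of the cells by `1, …, n`
increasing along rows (left to right) and down columns. -/
structure SYT (S : SkewShape) where
  entry : S.cells → ℕ
  bij : Set.BijOn entry Set.univ (Set.Icc 1 S.size)
  row_lt : ∀ a b : S.cells, a.1.1 = b.1.1 → a.1.2 < b.1.2 → entry a < entry b
  col_lt : ∀ a b : S.cells, a.1.2 = b.1.2 → a.1.1 < b.1.1 → entry a < entry b

/-- The descent set: all `i ∈ [n-1]` such that `i + 1` lies in a row strictly below the row
of `i`. -/
def SYT.Des {S : SkewShape} (T : SYT S) : Set ℕ :=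
  {i | i ∈ Set.Icc 1 (S.size - 1) ∧
    ∃ a b : S.cells, T.entry a = i ∧ T.entry b = i + 1 ∧ a.1.1 < b.1.1}

/-- The set `D(S)` of descent numbers occurring on `SYT(S)`. -/
def descentNumbers (S : SkewShape) : Set ℕ := {d | ∃ T : SYT S, T.Des.ncard = d}

/-- A cyclic descent map for `S`: a map `SYT(S) → 2^[n]` for which some bijection `φ` of `SYT(S)`
satisfies extension, equivariance (`i ↦ i + 1` modulo `n` with values in `[n]`, that is
`i ↦ i % n + 1`) and the non-Escher condition. -/
def IsCyclicDescentMap (S : SkewShape) (cDes : SYT S → Set ℕ) : Prop :=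
  (∀ T, cDes T ⊆ Set.Icc 1 S.size) ∧
  ∃ φ : SYT S ≃ SYT S, ∀ T : SYT S,
    cDes T ∩ Set.Icc 1 (S.size - 1) = T.Des ∧
    cDes (φ T) = (fun i => i % S.size + 1) '' cDes T ∧
    cDes T ≠ ∅ ∧ cDes T ≠ Set.Icc 1 S.size

end Pool.Agent.Work.MP_496e47_co
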