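import Pool.Agent.Work.MP_496e47_co.Defs

namespace Pool.Agent.Work.MP_496e47_co

def cells33 : Finset (ℕ × ℕ) := {(0,0),(0,1),(0,2),(1,0),(1,1),(1,2)}

def yd33 : YoungDiagram where
  cells := cells33
  isLowerSet := by
    rintro ⟨a, b⟩ ⟨c, d⟩ h hab
    simp only [cells33, Finset.coe_insert, Finset.coe_singleton, Set.mem_insert_iff,
      Set.mem_singleton_iff, Prod.mk.injEq, Prod.mk_le_mk] at *
    omega

def S33 : SkewShape := ⟨yd33, ⊥, bot_le⟩

lemma cells_S33 : S33.cells = cells33 := by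
  simp [SkewShape.cells, S33, yd33]

lemma size_S33 : S33.size = 6 := by
  rw [SkewShape.size, cells_S33]; rfl

lemma mem_S33 (p : ℕ × ℕ) : p ∈ S33.cells ↔ p.1 < 2 ∧ p.2 < 3 := by
  rw [cells_S33]
  obtain ⟨a, b⟩ := p
  simp only [cells33, Finset.mem_insert, Finset.mem_singleton, Prod.mk.injEq]
  omega

/-- cell `(r, c)` -/
def cell (r : Fin 2) (c : Fin 3) : S33.cells := ⟨(r, c), (mem_S33 _).2 ⟨r.2, c.2⟩⟩

lemma exists_cell (a : S33.cells) : ∃ r c, a = cell r c := by
  obtain ⟨⟨x, y⟩, h⟩ := a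
  have h' := (mem_S33 _).1 h
  exact ⟨⟨x, h'.1⟩, ⟨y, h'.2⟩, rfl⟩

lemma forall_cell {P : S33.cells → Prop} : (∀ a, P a) ↔ ∀ r c, P (cell r c) :=
  ⟨fun h _ _ => h _, fun h a => by obtain ⟨r, c, rfl⟩ := exists_cell a; exact h r c⟩

lemma exists_cell_iff {P : S33.cells → Prop} : (∃ a, P a) ↔ ∃ r c, P (cell r c) :=
  ⟨fun ⟨a, h⟩ => by obtain ⟨r, c, rfl⟩ := exists_cell a; exact ⟨r, c, h⟩,
   fun ⟨_, _, h⟩ => ⟨_, h⟩⟩

lemma cell_inj {r r' : Fin 2} {c c' : Fin 3} : cell r c = cell r' c' ↔ r = r' ∧ c = c' := by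
  simp [cell, Fin.ext_iff]

def tab : Fin 5 → ℕ → ℕ → ℕ
  | 0 => fun r c => if r = 0 then [1,2,3].getD c 0 else [4,5,6].getD c 0
  | 1 => fun r c => if r = 0 then [1,2,4].getD c 0 else [3,5,6].getD c 0
  | 2 => fun r c => if r = 0 then [1,2,5].getD c 0 else [3,4,6].getD c 0
  | 3 => fun r c => if r = 0 then [1,3,4].getD c 0 else [2,5,6].getD c 0
  | 4 => fun r c => if r = 0 then [1,3,5].getD c 0 else [2,4,6].getD c 0

def mk (i : Fin 5) : SYT S33 where
  entry a := tab i a.1.1 a.1.2
  bij := by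
    rw [size_S33]
    refine ⟨?_, ?_, ?_⟩
    · intro a _
      obtain ⟨r, c, rfl⟩ := exists_cell a
      simp only [cell, Set.mem_Icc]
      revert i r c; decide
    · intro a _ b _
      obtain ⟨r, c, rfl⟩ := exists_cell a
      obtain ⟨r', c', rfl⟩ := exists_cell b
      rw [cell_inj]
      simp only [cell]
      revert i r c r' c'; decide
    · intro k hk
      simp only [Set.image_univ, Set.mem_range]
      rw [exists_cell_iff]
      simp only [cell]
      obtain ⟨h1, h2⟩ := hk
      interval_cases k <;> revert i <;> decide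
  row_lt := by
    intro a b
    obtain ⟨r, c, rfl⟩ := exists_cell a
    obtain ⟨r', c', rfl⟩ := exists_cell b
    simp only [cell]
    revert i r c r' c'; decide
  col_lt := by
    intro a b
    obtain ⟨r, c, rfl⟩ := exists_cell a
    obtain ⟨r', c', rfl⟩ := exists_cell b
    simp only [cell]
    revert i r c r' c'; decide

lemma SYT.ext' {S : SkewShape} {T U : SYT S} (h : T.entry = U.entry) : T = U := by
  cases T; cases U; simp only at h; subst h; rfl

lemma exists_mk (T : SYT S33) : ∃ i, T = mk i := by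
  have hb := T.bij
  rw [size_S33] at hb
  have hr : ∀ r c, 1 ≤ T.entry (cell r c) ∧ T.entry (cell r c) ≤ 6 :=
    fun r c => hb.1 (Set.mem_univ _)
  have hi : ∀ r c r' c', ¬ (r = r' ∧ c = c') → T.entry (cell r c) ≠ T.entry (cell r' c') :=
    fun r c r' c' h h' => h (cell_inj.1 (hb.2.1 (Set.mem_univ _) (Set.mem_univ _) h'))
  have h1 := T.row_lt (cell 0 0) (cell 0 1) rfl (by simp [cell])
  have h2 := T.row_lt (cell 0 1) (cell 0 2) rfl (by simp [cell])
  have h3 := T.row_lt (cell 1 0) (cell 1 1) rfl (by simp [cell])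
  have h4 := T.row_lt (cell 1 1) (cell 1 2) rfl (by simp [cell])
  have h5 := T.col_lt (cell 0 0) (cell 1 0) rfl (by simp [cell])
  have h6 := T.col_lt (cell 0 1) (cell 1 1) rfl (by simp [cell])
  have h7 := T.col_lt (cell 0 2) (cell 1 2) rfl (by simp [cell])
  have n1 := hi 0 1 1 0 (by decide)
  have n2 := hi 0 2 1 0 (by decide)
  have n3 := hi 0 2 1 1 (by decide)
  have r1 := hr 0 0
  have r2 := hr 1 2
  have key : ∀ i : Fin 5, T.entry (cell 0 0) = tab i 0 0 → T.entry (cell 0 1) = tab i 0 1 →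
      T.entry (cell 0 2) = tab i 0 2 → T.entry (cell 1 0) = tab i 1 0 →
      T.entry (cell 1 1) = tab i 1 1 → T.entry (cell 1 2) = tab i 1 2 → T = mk i := by
    intro i e1 e2 e3 e4 e5 e6
    apply SYT.ext'
    funext a
    obtain ⟨r, c, rfl⟩ := exists_cell a
    fin_cases r <;> fin_cases c <;> assumption
  have hcases : (T.entry (cell 0 1) = 2 ∧ T.entry (cell 0 2) = 3) ∨
      (T.entry (cell 0 1) = 2 ∧ T.entry (cell 0 2) = 4) ∨
      (T.entry (cell 0 1) = 2 ∧ T.entry (cell 0 2) = 5) ∨
      (T.entry (cell 0 1) = 3 ∧ T.entry (cell 0 2) = 4) ∨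
      (T.entry (cell 0 1) = 3 ∧ T.entry (cell 0 2) = 5) := by omega
  rcases hcases with h | h | h | h | h
  · exact ⟨0, key 0 (by simp [tab]; omega) (by simp [tab]; omega) (by simp [tab]; omega)
      (by simp [tab]; omega) (by simp [tab]; omega) (by simp [tab]; omega)⟩
  · exact ⟨1, key 1 (by simp [tab]; omega) (by simp [tab]; omega) (by simp [tab]; omega)
      (by simp [tab]; omega) (by simp [tab]; omega) (by simp [tab]; omega)⟩
  · exact ⟨2, key 2 (by simp [tab]; omega) (by simp [tab]; omega) (by simp [tab]; omega)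
      (by simp [tab]; omega) (by simp [tab]; omega) (by simp [tab]; omega)⟩
  · exact ⟨3, key 3 (by simp [tab]; omega) (by simp [tab]; omega) (by simp [tab]; omega)
      (by simp [tab]; omega) (by simp [tab]; omega) (by simp [tab]; omega)⟩
  · exact ⟨4, key 4 (by simp [tab]; omega) (by simp [tab]; omega) (by simp [tab]; omega)
      (by simp [tab]; omega) (by simp [tab]; omega) (by simp [tab]; omega)⟩

def des : Fin 5 → Finset ℕ
  | 0 => {3}
  | 1 => {2, 4}
  | 2 => {2, 5}
  | 3 => {1, 4}
  | 4 => {1, 3, 5}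

lemma Des_mk (i : Fin 5) : (mk i).Des = ↑(des i) := by
  ext k
  simp only [SYT.Des, size_S33, Set.mem_ofPred_eq, Set.mem_Icc, Finset.mem_coe]
  simp only [exists_cell_iff]
  simp only [mk, cell]
  constructor
  · rintro ⟨⟨h1, h2⟩, h⟩
    have h2' : k ≤ 5 := h2
    revert h
    interval_cases k <;> revert i <;> decide
  · intro h
    have hk : 1 ≤ k ∧ k ≤ 5 := by
      fin_cases i <;> simp [des] at h <;> omega
    refine ⟨hk, ?_⟩
    obtain ⟨h1, h2⟩ := hk
    revert h
    interval_cases k <;> revert i <;> decide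

lemma mk_inj : Function.Injective mk := by
  intro i j h
  have h1 : (des i : Set ℕ) = ↑(des j) := by rw [← Des_mk, ← Des_mk, h]
  have h2 : des i = des j := Finset.coe_injective h1
  clear h h1
  revert i j
  decide

noncomputable def eqv : Fin 5 ≃ SYT S33 :=
  Equiv.ofBijective mk ⟨mk_inj, fun T => by obtain ⟨i, h⟩ := exists_mk T; exact ⟨i, h.symm⟩⟩

lemma eqv_apply (i : Fin 5) : eqv i = mk i := rfl

/-- candidate cyclic descent sets -/
def cc (b : Fin 5 → Bool) (i : Fin 5) : Finset ℕ := if b i then insert 6 (des i) else des i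

def b0 : Fin 5 → Bool
  | 0 => true
  | 1 => true
  | 2 => false
  | 3 => false
  | 4 => false

def rot : Fin 5 ≃ Fin 5 where
  toFun := ![3, 4, 0, 2, 1]
  invFun := ![2, 4, 3, 0, 1]
  left_inv := by decide
  right_inv := by decide

noncomputable def c0 : SYT S33 → Set ℕ := fun T => ↑(cc b0 (eqv.symm T))

lemma Icc_coe (a b : ℕ) : Set.Icc a b = ↑(Finset.Icc a b) := by simp

lemma c0_isCDes : IsCyclicDescentMap S33 c0 := by
  unfold IsCyclicDescentMap
  rw [size_S33]
  refine ⟨?_, eqv.symm.trans (rot.trans eqv), ?_⟩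
  · intro T
    obtain ⟨i, rfl⟩ := eqv.surjective T
    simp only [c0, Equiv.symm_apply_apply, Icc_coe, Finset.coe_subset]
    revert i; decide
  · intro T
    obtain ⟨i, rfl⟩ := eqv.surjective T
    have hD : (eqv i).Des = ↑(des i) := Des_mk i
    simp only [c0, Equiv.symm_apply_apply, Equiv.trans_apply, Icc_coe, hD]
    rw [← Finset.coe_inter, ← Finset.coe_image, ← Finset.coe_empty]
    simp only [Ne, Finset.coe_inj]
    clear hD
    revert i; decide

lemma unique_b (b : Fin 5 → Bool)
    (h : ∀ i, ∃ j, cc b j = (cc b i).image (fun k => k % 6 + 1)) : b = b0 := by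
  revert b; decide

lemma unique_c (c : SYT S33 → Set ℕ) (hc : IsCyclicDescentMap S33 c) : c = c0 := by
  classical
  obtain ⟨hsub, φ, hφ⟩ := hc
  rw [size_S33] at hsub hφ
  let b : Fin 5 → Bool := fun i => decide (6 ∈ c (eqv i))
  have hb : ∀ i, c (eqv i) = ↑(cc b i) := by
    intro i
    have h1 := (hφ (eqv i)).1
    have hD : (eqv i).Des = ↑(des i) := Des_mk i
    rw [hD] at h1
    have h2 := hsub (eqv i)
    ext k
    have h1k : k ∈ c (eqv i) ∧ (1 ≤ k ∧ k ≤ 5) ↔ k ∈ des i := by
      have := congrArg (fun s => k ∈ s) h1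
      simpa using this
    by_cases h6 : 6 ∈ c (eqv i)
    · simp only [cc, b, h6, decide_true, if_true, Finset.coe_insert, Set.mem_insert_iff,
        Finset.mem_coe]
      constructor
      · intro hk
        have := h2 hk
        simp only [Set.mem_Icc] at this
        by_cases hk6 : k = 6
        · exact Or.inl hk6
        · exact Or.inr (h1k.1 ⟨hk, by omega⟩)
      · rintro (rfl | hk)
        · exact h6
        · exact (h1k.2 hk).1
    · simp only [cc, b, h6, decide_false, Bool.false_eq_true, if_false, Finset.mem_coe]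
      constructor
      · intro hk
        have := h2 hk
        simp only [Set.mem_Icc] at this
        have hk6 : k ≠ 6 := by rintro rfl; exact h6 hk
        exact h1k.1 ⟨hk, by omega⟩
      · intro hk
        exact (h1k.2 hk).1
  have hbb : b = b0 := by
    apply unique_b
    intro i
    refine ⟨eqv.symm (φ (eqv i)), ?_⟩
    have h := (hφ (eqv i)).2.1
    apply Finset.coe_injective
    rw [← hb, Equiv.apply_symm_apply, h, hb, Finset.coe_image]
  funext T
  obtain ⟨i, rfl⟩ := eqv.surjective T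
  rw [hb, hbb]
  simp [c0]

lemma descentNumbers_S33 : descentNumbers S33 = {1, 2, 3} := by
  ext d
  simp only [descentNumbers, Set.mem_ofPred_eq, Set.mem_insert_iff, Set.mem_singleton_iff]
  constructor
  · rintro ⟨T, rfl⟩
    obtain ⟨i, rfl⟩ := exists_mk T
    rw [Des_mk, Set.ncard_coe_finset]
    revert i; decide
  · rintro (rfl | rfl | rfl)
    · exact ⟨mk 0, by rw [Des_mk, Set.ncard_coe_finset]; rfl⟩
    · exact ⟨mk 1, by rw [Des_mk, Set.ncard_coe_finset]; rfl⟩
    · exact ⟨mk 4, by rw [Des_mk, Set.ncard_coe_finset]; rfl⟩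

lemma rowLens_yd33 : yd33.rowLens = [3, 3] := by
  have hc : yd33.colLen 0 = 2 := by
    apply le_antisymm
    · by_contra h
      have : (2, 0) ∈ yd33 := YoungDiagram.mem_iff_lt_colLen.2 (by omega)
      revert this
      change (2, 0) ∈ cells33 → False
      decide
    · have : (1, 0) ∈ yd33 := by change (1, 0) ∈ cells33; decide
      have := YoungDiagram.mem_iff_lt_colLen.1 this
      omega
  have hr : ∀ i, i < 2 → yd33.rowLen i = 3 := by
    intro i hi
    apply le_antisymm
    · by_contra h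
      have : (i, 3) ∈ yd33 := YoungDiagram.mem_iff_lt_rowLen.2 (by omega)
      revert this
      change (i, 3) ∈ cells33 → False
      interval_cases i <;> decide
    · have : (i, 2) ∈ yd33 := by
        change (i, 2) ∈ cells33
        interval_cases i <;> decide
      have := YoungDiagram.mem_iff_lt_rowLen.1 this
      omega
  rw [YoungDiagram.rowLens, hc]
  simp [List.range_succ, hr]

end Pool.Agent.Work.MP_496e47_co
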